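import Pool.Agent.Work.MP_4336d9_an.Assembly

/-! For `1 < p < q < ∞` the closed ideal of finitely strictly singular operators from `ℓ_p` to
`ℓ_q` is not generated by one operator. -/

open scoped ENNReal
open Pool.Agent.Work.MP_4336d9_an

namespace Pool.Agent.Results.MP_4336d9_an.FSNotSinglyGenerated

/-- For all `1 < p < q < ∞` (real or complex scalars) there is no operator `T : ℓ_p → ℓ_q` whose
closed ideal is the set of the finitely strictly singular operators. -/
theorem result (𝕜 : Type) [RCLike 𝕜] (p q : ℝ≥0∞) [Fact (1 ≤ p)] [Fact (1 ≤ q)]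
    (hp : 1 < p) (hpq : p < q) (hq : q < ∞) :
    ¬ ∃ T : ell 𝕜 p →L[𝕜] ell 𝕜 q, closedIdeal T = FSS 𝕜 (ell 𝕜 p) (ell 𝕜 q) := by
  rintro ⟨T, hT⟩
  exact main p q hp hpq hq T hT

end Pool.Agent.Results.MP_4336d9_an.FSNotSinglyGenerated
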